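import Pool.Agent.E8helper20.CTM.StmD
import Pool.Agent.E8helper51.CTK3.Hal3

/-!
# Project CTM, part M2 (helper87): mean values of the characters twisted modulo `9`

Adapted from `Pool/Agent/E8helper51/CTK3/Hal3.lean`: the twist is a nonzero linear form of the two
digits.
-/

set_option autoImplicit false

open Finset

namespace Pool.Agent.E8helper87.CTM

open Pool.Agent.Y692.QS (Ei w nr)
open Pool.Agent.Y715.T.Rec (cs)
open Pool.Agent.Y715.T.RecG (Pq)
open Pool.Agent.Y699.E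
open Pool.Agent.E8helper20.CTK3 (yd)
open Pool.Agent.E8helper20.CTM (xd c2 c3 lf S_HAL9)
open Pool.Agent.E8helper51.CTK3 (CP conv_boundP re_three im_three re_nine im_nine re_one' im_one'
  yd_of prm_iff yd_mul yd_one yd_per nrm_nine nine_ne chP_le')
open scoped ComplexConjugate

lemma xd_of {a x : Ei} (h : a = 1 + 3 * x) : xd a = ((x.re : ℤ) : ZMod 3) := by
  unfold xd
  have h1 : a.re - 1 = 3 * x.re := by
    rw [h]
    simp [re_three, im_three, re_one']
  rw [h1, Int.mul_ediv_cancel_left _ (by norm_num)]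

lemma xd_mul {a b : Ei} (ha : prm a) (hb : prm b) : xd (a * b) = xd a + xd b := by
  obtain ⟨x, rfl⟩ := prm_iff.1 ha
  obtain ⟨y, rfl⟩ := prm_iff.1 hb
  have e : (1 + 3 * x) * (1 + 3 * y) = 1 + 3 * (x + y + 3 * (x * y)) := by ring
  rw [xd_of e, xd_of rfl, xd_of rfl]
  have e2 : (x + y + 3 * (x * y)).re = x.re + y.re + 3 * (x * y).re := by
    simp [re_three, im_three]
  rw [e2]
  push_cast
  have h3 : (3 : ZMod 3) = 0 := by decide
  rw [h3, zero_mul, add_zero]

lemma xd_one : xd 1 = 0 := by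
  rw [xd_of (x := 0) (by ring)]
  simp

lemma xd_per {a b : Ei} (h : (9 : Ei) ∣ a - b) : xd a = xd b := by
  obtain ⟨c, hc⟩ := h
  have h1 : a.re - 1 = b.re - 1 + 3 * (3 * c.re) := by
    have h2 : a = b + 9 * c := by linear_combination hc
    rw [h2]
    simp [re_nine, im_nine]
    ring
  unfold xd
  rw [h1, Int.add_mul_ediv_left _ _ (by norm_num)]
  push_cast
  have h3 : (3 : ZMod 3) = 0 := by decide
  rw [h3, zero_mul, add_zero]

lemma lf_mul (s t : ZMod 3) {a b : Ei} (ha : prm a) (hb : prm b) :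
    lf s t (a * b) = lf s t a + lf s t b := by
  unfold lf c2 c3
  rw [xd_mul ha hb, yd_mul ha hb]
  ring

lemma lf_one (s t : ZMod 3) : lf s t 1 = 0 := by
  unfold lf c2 c3
  rw [xd_one, yd_one]
  ring

lemma lf_per (s t : ZMod 3) {a b : Ei} (h : (9 : Ei) ∣ a - b) : lf s t a = lf s t b := by
  unfold lf c2 c3
  rw [xd_per h, yd_per h]

/-- an element which is `1` modulo `n`, primary, and where the linear form does not vanish -/
lemma exists_twist {s t : ZMod 3} (hst : s ≠ 0 ∨ t ≠ 0) {n : Ei} (hn : prm n) :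
    ∃ u : Ei, lf s t (1 + 3 * (u * n)) ≠ 0 := by
  obtain ⟨k, hk⟩ := prm_iff.1 hn
  have h3 : (3 : ZMod 3) = 0 := by decide
  by_cases hs : s = 0
  · have ht : t ≠ 0 := hst.resolve_left (not_not.2 hs)
    refine ⟨w, ?_⟩
    have e1 : yd (1 + 3 * (w * n)) = 1 := by
      rw [yd_of rfl, hk]
      have e : (w * (1 + 3 * k)).im = 1 + 3 * (k.re - k.im) := by
        simp [Pool.Agent.Y692.QS.w, re_three, im_three, re_one', im_one']
        ring
      rw [e]
      push_cast
      rw [h3, zero_mul, add_zero]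
    unfold lf c3
    rw [hs, e1, zero_mul, zero_add, mul_one]
    exact ht
  · refine ⟨1, ?_⟩
    have e1 : yd (1 + 3 * (1 * n)) = 0 := by
      rw [yd_of rfl, hk]
      have e : (1 * (1 + 3 * k)).im = 3 * k.im := by
        simp [re_three, im_three, re_one', im_one']
      rw [e]
      push_cast
      rw [h3, zero_mul]
    have e2 : xd (1 + 3 * (1 * n)) = 1 := by
      rw [xd_of rfl, hk]
      have e : (1 * (1 + 3 * k)).re = 1 + 3 * k.re := by
        simp [re_three, im_three, re_one', im_one']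
      rw [e]
      push_cast
      rw [h3, zero_mul, add_zero]
    unfold lf c2 c3
    rw [e1, e2, add_zero, mul_zero, add_zero, mul_neg, mul_one]
    exact neg_ne_zero.2 hs

/-- the twisted character -/
noncomputable def ch (s t : ZMod 3) (A B a : Ei) : ℂ := ez (lf s t a) * xab A B a

lemma ch_cp (s t : ZMod 3) {A B : Ei} (hA : PS A) (hB : PS B) : CP (ch s t A B) := by
  have hx := xab_ch hA hB
  refine ⟨?_, ?_, ?_⟩
  · unfold ch
    rw [hx.one, lf_one, ez_zero, one_mul]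
  · intro a b ha hb
    unfold ch
    rw [hx.mul, lf_mul s t ha hb, ez_add]
    ring
  · intro a
    unfold ch xab
    rcases jac_cases A a with h | ⟨c, h⟩
    · left; rw [h, zero_mul, mul_zero]
    · rcases jac_cases B a with h' | ⟨c', h'⟩
      · left; rw [h', map_zero, mul_zero, mul_zero]
      · right
        rw [h, h', conj_ez, ← ez_add, ← ez_add]
        exact ez_val _

open Classical in
/-- the function on all elements -/
noncomputable def ff (s t : ZMod 3) (A B a : Ei) : ℂ := if prm a then ch s t A B a else 0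

lemma ff_sum {s t : ZMod 3} (ht : s ≠ 0 ∨ t ≠ 0) {A B : Ei} (hA : PS A) (hB : PS B) (V : ℕ) :
    ‖∑ a ∈ ZB V, ff s t A B a‖ ≤ 243 * (nrm A * nrm B) * (3 * Real.sqrt V + 1) := by
  classical
  have hq : 9 * (A * B) ≠ 0 := mul_ne_zero nine_ne (mul_ne_zero hA.ne hB.ne)
  have hn : prm (A * B) := prm_mul hA.prm hB.prm
  obtain ⟨u, hu⟩ := exists_twist ht hn
  set c : Ei := 1 + 3 * (u * (A * B)) with hc
  have hcp : prm c := prm_iff.2 ⟨_, hc⟩
  have hcA : A ∣ c - 1 := ⟨3 * u * B, by rw [hc]; ring⟩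
  have hcB : B ∣ c - 1 := ⟨3 * u * A, by rw [hc]; ring⟩
  have hcop : IsCoprime c (9 * (A * B)) := by
    refine IsCoprime.mul_right ?_ ?_
    · refine ⟨1 - 3 * (u * (A * B)), (u * (A * B)) ^ 2, ?_⟩
      rw [hc]
      ring
    · exact ⟨1, -(3 * u), by rw [hc]; ring⟩
  have hjA : jac A c = 1 := by rw [jac_per hA.ne hcA, jac_one_right hA.ne]
  have hjB : jac B c = 1 := by rw [jac_per hB.ne hcB, jac_one_right hB.ne]
  have hcp' := ch_cp s t hA hB
  have hez : ez (lf s t c) ≠ 1 := ez_ne hu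
  have h3 := csum hq (f := ff s t A B) (c := c) (z := ez (lf s t c)) ?_ ?_ hcop hez ?_ V
  · refine h3.trans (le_of_eq ?_)
    rw [nrm_mul, nrm_mul, nrm_nine]
    push_cast
    ring
  · intro a b hab
    unfold ff
    have e0 : (9 : Ei) ∣ a - b := (dvd_mul_right _ _).trans hab
    have e1 : (3 : Ei) ∣ a - b := (Dvd.intro (3 : Ei) (by norm_num)).trans e0
    have e2 : A ∣ a - b := ((dvd_mul_right _ _).trans (dvd_mul_left _ _)).trans hab
    have e3 : B ∣ a - b := ((dvd_mul_left _ _).trans (dvd_mul_left _ _)).trans hab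
    have e4 : prm a ↔ prm b := by
      unfold prm
      constructor
      · intro h
        have := dvd_sub h e1
        have e : a - 1 - (a - b) = b - 1 := by ring
        rwa [e] at this
      · intro h
        have := dvd_add h e1
        have e : b - 1 + (a - b) = a - 1 := by ring
        rwa [e] at this
    unfold ch xab
    rw [jac_per hA.ne e2, jac_per hB.ne e3, lf_per s t e0]
    by_cases h : prm a
    · rw [if_pos h, if_pos (e4.1 h)]
    · rw [if_neg h, if_neg (fun hh => h (e4.2 hh))]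
  · intro a
    unfold ff
    split_ifs
    · exact hcp'.norm_le a
    · simp
  · intro a
    unfold ff
    have e4 : prm (c * a) ↔ prm a :=
      ⟨fun h => prm_cancel hcp h, fun h => prm_mul hcp h⟩
    by_cases h : prm a
    · rw [if_pos h, if_pos (e4.2 h), hcp'.mul _ _ hcp h]
      congr 1
      unfold ch xab
      rw [hjA, hjB, map_one, mul_one, mul_one]
    · rw [if_neg h, if_neg (fun hh => h (e4.1 hh)), mul_zero]

lemma chP_le {s t : ZMod 3} (ht : s ≠ 0 ∨ t ≠ 0) {A B : Ei} (hA : PS A) (hB : PS B) {v : ℕ} (hv : 1 ≤ v) :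
    ‖∑ d ∈ PB v, ch s t A B d‖ ≤ 972 * (nrm A * nrm B : ℕ) * Real.sqrt v := by
  classical
  have h := ff_sum ht hA hB v
  have e : ∑ a ∈ ZB v, ff s t A B a = ∑ d ∈ PB v, ch s t A B d := by
    unfold PB
    rw [sum_filter]
    refine sum_congr rfl fun a _ => ?_
    unfold ff
    rfl
  rw [e] at h
  have h2 : (1 : ℝ) ≤ Real.sqrt v := Real.one_le_sqrt.2 (by exact_mod_cast hv)
  have h3 : (0 : ℝ) ≤ (nrm A : ℝ) * nrm B := by positivity
  refine h.trans ?_
  push_cast
  nlinarith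

/-- partial sums of the L-series at 1 -/
theorem chP_log {s t : ZMod 3} (ht : s ≠ 0 ∨ t ≠ 0) {A B : Ei} (hA : PS A) (hB : PS B) (Y : ℕ) :
    ‖∑ d ∈ PB Y, ch s t A B d / nrm d‖ ≤ 1992 * lg (nrm A * nrm B) := by
  classical
  have hN1 : 1 ≤ nrm A * nrm B := Nat.mul_pos (nrm_pos' hA.ne) (nrm_pos' hB.ne)
  have hch := ch_cp s t hA hB
  have hle := fun (v : ℕ) (hv : 1 ≤ v) => chP_le ht hA hB hv
  set χ := ch s t A B with hχ
  set N := nrm A * nrm B with hN
  have hlg := one_le_lg N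
  rcases Nat.eq_zero_or_pos Y with h0 | hY
  · have : PB Y = ∅ := by
      rw [eq_empty_iff_forall_notMem]
      intro x hx
      rw [mem_PB] at hx
      have := nrm_pos' (prm_ne_zero hx.2)
      omega
    rw [this, sum_empty, norm_zero]
    linarith
  have hYr : (0 : ℝ) < Y := by exact_mod_cast hY
  -- summation by parts
  have e1 : ∑ d ∈ PB Y, χ d / nrm d = (∑ d ∈ PB Y, χ d) * ((1 / Y : ℝ) : ℂ) +
      ∑ v ∈ Ico 1 Y, (∑ d ∈ PB v, χ d) * ((1 / ((v : ℝ) * (v + 1)) : ℝ) : ℂ) := by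
    have e2 : ∀ d ∈ PB Y, χ d / nrm d = χ d * ((1 / Y : ℝ) : ℂ) +
        ∑ v ∈ Ico 1 Y, if nrm d ≤ v then χ d * ((1 / ((v : ℝ) * (v + 1)) : ℝ) : ℂ) else 0 := by
      intro d hd
      rw [mem_PB] at hd
      have hd1 := nrm_pos' (prm_ne_zero hd.2)
      have h2 := inv_tel (nrm d) hd1 Y hd.1
      have h3 : χ d / (nrm d : ℂ) = χ d * ((1 / (nrm d : ℝ) : ℝ) : ℂ) := by
        push_cast
        rw [mul_one_div]
      rw [h3, h2, Complex.ofReal_add, mul_add]
      congr 1
      rw [Complex.ofReal_sum, mul_sum, ← sum_filter]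
      refine sum_congr ?_ fun _ _ => rfl
      ext v
      rw [mem_filter, mem_Ico, mem_Ico]
      constructor
      · rintro ⟨a1, a2⟩; exact ⟨⟨by omega, a2⟩, a1⟩
      · rintro ⟨⟨-, a2⟩, a1⟩; exact ⟨a1, a2⟩
    rw [sum_congr rfl e2, sum_add_distrib, ← sum_mul, sum_comm]
    congr 1
    refine sum_congr rfl fun v hv => ?_
    rw [mem_Ico] at hv
    rw [← sum_filter, ← sum_mul]
    congr 1
    refine sum_congr ?_ fun _ _ => rfl
    ext d
    rw [mem_filter, mem_PB, mem_PB]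
    constructor
    · rintro ⟨⟨-, a2⟩, a1⟩; exact ⟨a1, a2⟩
    · rintro ⟨a1, a2⟩; exact ⟨⟨by omega, a2⟩, a1⟩
  rw [e1]
  refine (norm_add_le _ _).trans ?_
  have nr : ∀ {r : ℝ}, 0 ≤ r → ‖(r : ℂ)‖ = r := fun {r} h => by
    rw [Complex.norm_real, Real.norm_of_nonneg h]
  have e3 : ‖(∑ d ∈ PB Y, χ d) * ((1 / Y : ℝ) : ℂ)‖ ≤ 16 := by
    rw [norm_mul, nr (by positivity), mul_one_div, div_le_iff₀ hYr]
    exact chP_le' hch hY
  have e4 : ∀ v ∈ Ico 1 Y, ‖(∑ d ∈ PB v, χ d) * ((1 / ((v : ℝ) * (v + 1)) : ℝ) : ℂ)‖ ≤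
      (if v < N ^ 2 then 16 * (1 / ((v : ℝ) + 1)) else 0) +
      (if N ^ 2 ≤ v then 972 * N * (Real.sqrt v / (v * (v + 1))) else 0) := by
    intro v hv
    rw [mem_Ico] at hv
    have v0 : (0 : ℝ) < v := by exact_mod_cast hv.1
    have hp : (0 : ℝ) < 1 / ((v : ℝ) * (v + 1)) := by positivity
    rw [norm_mul, nr hp.le]
    by_cases h : v < N ^ 2
    · rw [if_pos h, if_neg (by omega), add_zero]
      calc ‖∑ d ∈ PB v, χ d‖ * (1 / ((v : ℝ) * (v + 1))) ≤ (16 * v) * (1 / ((v : ℝ) * (v + 1))) :=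
            mul_le_mul_of_nonneg_right (chP_le' hch hv.1) hp.le
        _ = 16 * (1 / ((v : ℝ) + 1)) := by field_simp
    · rw [if_neg h, if_pos (by omega), zero_add]
      calc ‖∑ d ∈ PB v, χ d‖ * (1 / ((v : ℝ) * (v + 1))) ≤
            (972 * N * Real.sqrt v) * (1 / ((v : ℝ) * (v + 1))) :=
            mul_le_mul_of_nonneg_right (hle v hv.1) hp.le
        _ = 972 * N * (Real.sqrt v / (v * (v + 1))) := by ring
  have e5 : ‖∑ v ∈ Ico 1 Y, (∑ d ∈ PB v, χ d) * ((1 / ((v : ℝ) * (v + 1)) : ℝ) : ℂ)‖ ≤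
      16 * (2 * lg N) + 1944 := by
    refine (norm_sum_le _ _).trans ((sum_le_sum e4).trans ?_)
    rw [sum_add_distrib]
    have hN2 : 1 ≤ N ^ 2 := Nat.one_le_pow _ _ hN1
    have a1 : ∑ v ∈ Ico 1 Y, (if v < N ^ 2 then 16 * (1 / ((v : ℝ) + 1)) else 0) ≤ 16 * (2 * lg N) := by
      rw [← sum_filter, ← mul_sum]
      have h2 : ∑ v ∈ (Ico 1 Y).filter (fun v => v < N ^ 2), (1 : ℝ) / ((v : ℝ) + 1) ≤
          ∑ v ∈ Ico 1 (N ^ 2), (1 : ℝ) / ((v : ℝ) + 1) := by
        refine sum_le_sum_of_subset_of_nonneg ?_ (fun _ _ _ => by positivity)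
        intro v hv
        rw [mem_filter, mem_Ico] at hv
        rw [mem_Ico]
        exact ⟨hv.1.1, hv.2⟩
      have h3 := harm_le (N ^ 2) hN2
      have h4 : Real.log ((N ^ 2 : ℕ) : ℝ) = 2 * Real.log N := by
        push_cast
        rw [Real.log_pow]
        push_cast
        ring
      rw [h4] at h3
      have h5 := log_le_lg hN1
      linarith
    have a2 : ∑ v ∈ Ico 1 Y, (if N ^ 2 ≤ v then 972 * (N : ℝ) * (Real.sqrt v / (v * (v + 1))) else 0) ≤ 1944 := by
      rw [← sum_filter, ← mul_sum]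
      have h2 : ∑ v ∈ (Ico 1 Y).filter (fun v => N ^ 2 ≤ v), Real.sqrt v / ((v : ℝ) * (v + 1)) ≤
          ∑ v ∈ Ico (N ^ 2) (max Y (N ^ 2)), Real.sqrt v / ((v : ℝ) * (v + 1)) := by
        refine sum_le_sum_of_subset_of_nonneg ?_ (fun _ _ _ => by positivity)
        intro v hv
        rw [mem_filter, mem_Ico] at hv
        rw [mem_Ico]
        exact ⟨hv.2, lt_of_lt_of_le hv.1.2 (le_max_left _ _)⟩
      have h3 := sqrt_tel (N ^ 2) hN2 (max Y (N ^ 2)) (le_max_right _ _)
      have h4 : Real.sqrt ((N ^ 2 : ℕ) : ℝ) = N := by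
        push_cast
        exact Real.sqrt_sq (Nat.cast_nonneg _)
      rw [h4] at h3
      have h5 : (0 : ℝ) ≤ 1 / Real.sqrt ((max Y (N ^ 2) : ℕ) : ℝ) := by positivity
      have Nr : (0 : ℝ) < N := by exact_mod_cast hN1
      calc 972 * (N : ℝ) * ∑ v ∈ (Ico 1 Y).filter (fun v => N ^ 2 ≤ v), Real.sqrt v / ((v : ℝ) * (v + 1))
          ≤ 972 * N * (2 * (1 / N)) := by
            apply mul_le_mul_of_nonneg_left _ (by positivity)
            linarith
        _ = 1944 := by field_simp; norm_num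
    linarith
  linarith

/-- **the mean value for a twisted character** -/
theorem hallP {s t : ZMod 3} (ht : s ≠ 0 ∨ t ≠ 0) {A B : Ei} (hA : PS A) (hB : PS B) (T : ℕ) :
    ∑ n ∈ SB T, mf (fun π => (1 + 2 * (ez (lf s t π) * xab A B π).re) / 3) n ≤
      5544 * (lg (nrm A * nrm B)) ^ (1 / 3 : ℝ) * (T * (lg T) ^ (-(1 / 3) : ℝ)) := by
  classical
  rcases Nat.eq_zero_or_pos T with h0 | hT
  · rw [SB_empty h0, sum_empty]
    have h2 := lg_pos T
    have h3 := lg_pos (nrm A * nrm B)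
    positivity
  have hch := ch_cp s t hA hB
  have hl := one_le_lg (nrm A * nrm B)
  have hlT := lg_pos T
  have hAA : ∑ n ∈ PB (T ^ 3), mf (fun π => 3 * ((1 + 2 * (ch s t A B π).re) / 3)) n / nrm n ≤
      (18399744 * lg (nrm A * nrm B)) * lg T ^ 2 := by
    have e1 : (fun π : Ei => 3 * ((1 + 2 * (ch s t A B π).re) / 3)) = fun π => 1 + 2 * (ch s t A B π).re := by
      funext π; ring
    rw [e1]
    refine (conv_boundP hch (chP_log ht hA hB) (T ^ 3)).trans ?_
    have e5 := lg_cube T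
    have e6 := lg_pos (T ^ 3)
    have e7 : (32 * lg (T ^ 3)) ^ 2 ≤ (96 * lg T) ^ 2 := by
      apply pow_le_pow_left₀ (by positivity)
      linarith
    calc (32 * lg (T ^ 3)) ^ 2 * (1992 * lg (nrm A * nrm B)) ≤ (96 * lg T) ^ 2 * (1992 * lg (nrm A * nrm B)) := by
          apply mul_le_mul_of_nonneg_right e7 (by positivity)
      _ = 18358272 * (lg (nrm A * nrm B) * lg T ^ 2) := by ring
      _ ≤ 18399744 * (lg (nrm A * nrm B) * lg T ^ 2) := by
          have : 0 ≤ lg (nrm A * nrm B) * lg T ^ 2 := by positivity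
          linarith
      _ = _ := by ring
  have hv := fun π => hch.val π
  have h2 := hall_aux (g := fun π => (1 + 2 * (ch s t A B π).re) / 3)
    (fun π => by have := re_nonneg (hv π); linarith)
    (fun π => by have := re_le (hv π); linarith) hT (by linarith) hAA
  refine (le_of_eq (by rfl)).trans (h2.trans (le_of_eq ?_))
  have e : (18399744 * lg (nrm A * nrm B)) ^ (1 / 3 : ℝ) = 264 * (lg (nrm A * nrm B)) ^ (1 / 3 : ℝ) := by
    rw [Real.mul_rpow (by norm_num) (by linarith)]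
    congr 1
    rw [show (18399744 : ℝ) = 264 ^ (3 : ℝ) by norm_num, ← Real.rpow_mul (by norm_num)]
    norm_num
  rw [e]
  ring

/-- part M2 of project CTM -/
theorem t_HAL9 : S_HAL9 :=
  ⟨5544, by norm_num, fun _ _ _ _ ht hA hB T => hallP ht hA hB T⟩

end Pool.Agent.E8helper87.CTM
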